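import Pool.Agent.Hhelper77.SplitCore

/-!
# GCH below `κ` implies `s(κ) ≤ κ⁺⁺`
-/

universe u

open Cardinal Set Order

namespace Pool.Agent.Results.MP_0882a3_lc.SplittingBound

/-- A subset `S` of (the underlying set of the ordinal) `κ` splits `A`: both `A ∩ S` and `A \ S`
have cardinality `κ`. -/
def Splits (κ : Cardinal.{u}) (S A : Set κ.ord.ToType) : Prop :=
  #(A ∩ S : Set κ.ord.ToType) = κ ∧ #(A \ S : Set κ.ord.ToType) = κ

/-- `F` is a family of subsets of `κ` of cardinality `κ` such that every subset of `κ` of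
cardinality `κ` is split by a member of `F`. -/
def IsSplittingFamily (κ : Cardinal.{u}) (F : Set (Set κ.ord.ToType)) : Prop :=
  (∀ S ∈ F, #S = κ) ∧ ∀ A : Set κ.ord.ToType, #A = κ → ∃ S ∈ F, Splits κ S A

/-- The splitting number `s(κ)`: the least cardinality of a splitting family. -/
noncomputable def splittingNumber (κ : Cardinal.{u}) : Cardinal.{u} :=
  sInf {c | ∃ F : Set (Set κ.ord.ToType), IsSplittingFamily κ F ∧ #F = c}

theorem exists_splittingFamily_le (κ : Cardinal.{u}) (hκ : κ.IsRegular) (hunc : ℵ₀ < κ)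
    (hGCH : ∀ α : Cardinal.{u}, ℵ₀ ≤ α → α < κ → (2 : Cardinal.{u}) ^ α = succ α) :
    ∃ F : Set (Set κ.ord.ToType), IsSplittingFamily κ F ∧ #F ≤ succ (succ κ) := by
  classical
  have hinfκ : ℵ₀ ≤ κ := hunc.le
  rcases le_or_gt (#(Set κ.ord.ToType)) (succ (succ κ)) with hle | hlt
  · refine ⟨{S | #S = κ}, ⟨fun S hS => hS, ?_⟩, (mk_set_le _).trans hle⟩
    intro A hA
    have hAinf : A.Infinite := by
      rw [← Set.infinite_coe_iff, infinite_iff, hA]; exact hinfκ
    obtain ⟨t, v, htv, hdisj, hcard⟩ := hAinf.exists_union_disjoint_cardinal_eq_of_infinite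
    have h1 : #t + #v = κ := by
      rw [← mk_union_of_disjoint hdisj, htv, hA]
    have h2 : #t = κ := by
      rw [← hcard] at h1
      have htinf : ℵ₀ ≤ #t := by
        by_contra h
        push Not at h
        have : κ < ℵ₀ := by rw [← h1]; exact add_lt_aleph0 h h
        exact absurd this (not_lt.2 hinfκ)
      rwa [add_eq_self htinf] at h1
    refine ⟨t, h2, ?_, ?_⟩
    · have : A ∩ t = t := by rw [← htv]; exact union_inter_cancel_left
      rw [this, h2]
    · have : A \ t = v := by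
        rw [← htv, union_sdiff_left]
        exact hdisj.symm.sdiff_eq_left
      rw [this, ← hcard, h2]
  · obtain ⟨s, hs⟩ := le_mk_iff_exists_set.1 hlt.le
    obtain ⟨𝒮, h𝒮, hsplit⟩ := Pool.Agent.Hhelper77.Split.exists_small_splitting
      (K := κ.ord.ToType) hκ hunc (mk_ord_toType κ) (fun a => mk_Iio_toType_ord_lt a) hGCH hs
      (fun x : s => (x : Set κ.ord.ToType)) Subtype.val_injective
    refine ⟨{S ∈ 𝒮 | #S = κ}, ⟨fun S hS => hS.2, ?_⟩,
      (mk_le_mk_of_subset (sep_subset _ _)).trans h𝒮⟩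
    intro A hA
    obtain ⟨S, hS, h1, h2⟩ := hsplit A hA
    refine ⟨S, ⟨hS, le_antisymm ?_ ?_⟩, h1, h2⟩
    · exact (mk_set_le _).trans (mk_ord_toType κ).le
    · exact h1.ge.trans (mk_le_mk_of_subset inter_subset_right)

end Pool.Agent.Results.MP_0882a3_lc.SplittingBound

open Pool.Agent.Results.MP_0882a3_lc.SplittingBound in
/-- Negative answer to Q1: if `κ` is regular uncountable and `2 ^ α = α⁺` for every infinite
`α < κ`, then the minimum in the definition of `s(κ)` exists and `s(κ) ≤ κ⁺⁺`; in particular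
`s(κ) ≠ κ⁺⁺⁺`. -/
theorem Pool.Agent.Results.MP_0882a3_lc.SplittingBound.result
    (κ : Cardinal.{u}) (hκ : κ.IsRegular) (hunc : ℵ₀ < κ)
    (hGCH : ∀ α : Cardinal.{u}, ℵ₀ ≤ α → α < κ → (2 : Cardinal.{u}) ^ α = succ α) :
    (∃ F : Set (Set κ.ord.ToType), IsSplittingFamily κ F ∧ #F = splittingNumber κ) ∧
      splittingNumber κ ≤ succ (succ κ) ∧ splittingNumber κ ≠ succ (succ (succ κ)) := by
  obtain ⟨F, hF, hcard⟩ := exists_splittingFamily_le κ hκ hunc hGCH
  have hmem : #F ∈ {c | ∃ F : Set (Set κ.ord.ToType), IsSplittingFamily κ F ∧ #F = c} :=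
    ⟨F, hF, rfl⟩
  have hle : splittingNumber κ ≤ succ (succ κ) := (csInf_le' hmem).trans hcard
  exact ⟨csInf_mem ⟨_, hmem⟩, hle, (hle.trans_lt (lt_succ _)).ne⟩
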